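import Pool.Agent.Work.MP_ff738c_co.RowZero

set_option autoImplicit false

open PowerSeries

namespace Pool.Agent.Results.MP_ff738c_co.HankelAllShifts

open Pool.Agent.Work.MP_ff738c_co

/-- The Prouhet-Thue-Morse series `F = ∑ tₙ Xⁿ` over `𝔽₂`, `tₙ` = binary digit sum of `n` mod 2. -/
noncomputable def thueMorse : PowerSeries (ZMod 2) :=
  PowerSeries.mk fun n => (((Nat.digits 2 n).sum : ℕ) : ZMod 2)

lemma isUnit_coeff_one : IsUnit (PowerSeries.coeff 1 thueMorse) := by
  simp [thueMorse]

/-- The compositional inverse `G` of `F`. -/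
noncomputable def invThueMorse : PowerSeries (ZMod 2) :=
  thueMorse.substInvOfIsUnit isUnit_coeff_one

/-- The coefficients `cₙ ∈ {0, 1}` of `G`, read as integers. -/
noncomputable def c (n : ℕ) : ℤ := ((PowerSeries.coeff n invThueMorse).val : ℤ)

lemma coeff_sq (A : PowerSeries (ZMod 2)) (n : ℕ) :
    coeff n (A ^ 2) = if n % 2 = 0 then coeff (n / 2) A else 0 := by
  have h := MvPowerSeries.map_frobenius_expand (R := ZMod 2) (σ := Unit) 2 two_ne_zero (f := A)
  have hf : frobenius (ZMod 2) 2 = RingHom.id _ := ZMod.frobenius_zmod 2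
  rw [hf, MvPowerSeries.map_id] at h
  have h' : A ^ 2 = expand 2 two_ne_zero A := h.symm
  rw [h', coeff_expand]
  simp only [Nat.dvd_iff_mod_eq_zero]

lemma coeff_double (A : PowerSeries (ZMod 2)) (n : ℕ) :
    coeff n ((1 + X) * A ^ 2) = coeff (n / 2) A := by
  rw [add_mul, one_mul, map_add, coeff_sq]
  rcases Nat.even_or_odd' n with ⟨l, rfl | rfl⟩
  · rw [if_pos (by omega)]
    rcases l with _ | l
    · simp
    · rw [show 2 * (l + 1) = (2 * l + 1) + 1 by ring, coeff_succ_X_mul, coeff_sq,
        if_neg (by omega), add_zero]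
  · rw [if_neg (by omega), coeff_succ_X_mul, coeff_sq, if_pos (by omega), zero_add]
    congr 2; omega

lemma two_eq_zero : (2 : PowerSeries (ZMod 2)) = 0 := by
  have : (2 : PowerSeries (ZMod 2)) = C (2 : ZMod 2) := by rw [map_ofNat]
  rw [this, show (2 : ZMod 2) = 0 from rfl, map_zero]

lemma digit_sum (n : ℕ) :
    (Nat.digits 2 n).sum = n % 2 + (Nat.digits 2 (n / 2)).sum := by
  rcases Nat.eq_zero_or_pos n with rfl | hn
  · simp
  · rw [Nat.digits_def' (by norm_num) hn, List.sum_cons]

lemma thueMorse_eq :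
    (1 + X) ^ 2 * thueMorse = (1 + X) ^ 3 * thueMorse ^ 2 + X := by
  have h1 : thueMorse = (1 + X) * thueMorse ^ 2 + X * (mk 1) ^ 2 := by
    ext n
    rw [map_add, coeff_double]
    simp only [thueMorse, coeff_mk]
    rw [digit_sum n, Nat.cast_add, add_comm]
    congr 1
    rcases n with _ | n
    · simp
    · rw [coeff_succ_X_mul, coeff_sq]
      split_ifs with h
      · rw [show (n + 1) % 2 = 1 by omega]; simp
      · rw [show (n + 1) % 2 = 0 by omega]; simp
  have h2 : (mk 1 : PowerSeries (ZMod 2)) * (1 - X) = 1 := mk_one_mul_one_sub_eq_one _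
  have h3 := two_eq_zero
  linear_combination (1 + X) ^ 2 * h1 + X * (mk 1 * (1 - X) + 1) * h2
    + 2 * X ^ 2 * (mk 1) ^ 2 * h3

lemma inv_eq : (1 + X * (1 + invThueMorse)) ^ 3 = 1 + X := by
  have hs : HasSubst invThueMorse := HasSubst.substInvOfIsUnit _ _
  have h0 : constantCoeff thueMorse = 0 := by simp [thueMorse]
  have hF : thueMorse.subst invThueMorse = X := subst_substInvOfIsUnit_right _ h0 _
  have h := congrArg (substAlgHom (R := ZMod 2) hs) thueMorse_eq
  simp only [map_mul, map_pow, map_add, map_one, substAlgHom_X] at h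
  rw [coe_substAlgHom, hF] at h
  have h3 := two_eq_zero
  set G := invThueMorse
  have h' : (1 + G) ^ 2 * X = (1 + G) ^ 3 * X ^ 2 + G := h
  linear_combination X * h' + (X * (1 + G) + X ^ 2 * (1 + G) ^ 2 + X ^ 3 * (1 + G) ^ 3
    + X * G) * h3

lemma es_eq : (mk fun k => (es k : ZMod 2)) ^ 3 = 1 + X := by
  set E : PowerSeries (ZMod 2) := mk fun k => (es k : ZMod 2)
  set F : PowerSeries (ZMod 2) := mk fun k => (fs k : ZMod 2) with hF
  have hE : E = (1 + X) * F ^ 2 := by
    ext n
    rw [coeff_double]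
    simp [E, F, es]
  have hFF : F = (1 + X) * (F ^ 2) ^ 2 := by
    ext n
    rw [coeff_double, coeff_sq]
    simp only [F, coeff_mk]
    rw [fs_eq, us]
    split_ifs <;> simp
  have hF0 : F ≠ 0 := by
    intro h
    have := congrArg (coeff 0) h
    simp [F, fs_zero] at this
  have h1 : (1 + X) * F ^ 3 = 1 := by
    apply mul_left_cancel₀ hF0
    linear_combination -hFF
  rw [hE]
  linear_combination (1 + X) * ((1 + X) * F ^ 3 + 1) * h1

lemma series_eq : 1 + X * (1 + invThueMorse) = mk fun k => (es k : ZMod 2) := by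
  set A : PowerSeries (ZMod 2) := 1 + X * (1 + invThueMorse) with hA
  set E : PowerSeries (ZMod 2) := mk fun k => (es k : ZMod 2) with hE
  have h : (A - E) * (A ^ 2 + A * E + E ^ 2) = 0 := by
    linear_combination inv_eq - es_eq
  rcases mul_eq_zero.mp h with h | h
  · exact sub_eq_zero.mp h
  · exfalso
    have hA0 : constantCoeff A = 1 := by simp [hA]
    have hE0 : constantCoeff E = 1 := by simp [hE, es, fs_zero]
    have := congrArg constantCoeff h
    simp only [map_add, map_mul, map_pow, hA0, hE0, map_zero] at this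
    revert this
    decide

lemma c_eq (m : ℕ) : c (m + 1) = es (m + 2) := by
  have h := congrArg (coeff (m + 2)) series_eq
  rw [map_add, coeff_succ_X_mul, map_add, coeff_one, coeff_one, if_neg (by omega),
    if_neg (by omega), zero_add, zero_add, coeff_mk] at h
  rw [c, h]
  rcases fs_mem ((m + 2) / 2) with h | h <;> rw [es, h] <;> rfl

/-- All Hankel determinants `det (c_{q+i+j})_{0 ≤ i,j < n}` lie in `{-1, 0, 1}`. The determinant
`H_{p,n} = det (c_{p+i+j-1})_{1 ≤ i,j ≤ n}` is the case `q = p + 1`. -/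
theorem result (q n : ℕ) :
    (Matrix.of fun i j : Fin n => c (q + i.val + j.val)).det ∈ ({-1, 0, 1} : Set ℤ) := by
  have h : |(Matrix.of fun i j : Fin n => c (q + i.val + j.val)).det| ≤ 1 := by
    rcases q with _ | p
    · exact RowZero.row_zero (g := c) (by simp [c, invThueMorse]) c_eq n
    · refine (good_all n).1.of_eq (p + 2) _ ?_
      intro i j
      rw [Matrix.of_apply, show p + 1 + i.val + j.val = (p + i + j) + 1 by omega, c_eq]
      congr 1; omega
  rw [abs_le] at h
  simp only [Set.mem_insert_iff, Set.mem_singleton_iff]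
  omega

end Pool.Agent.Results.MP_ff738c_co.HankelAllShifts
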